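import Mathlib

open MeasureTheory ProbabilityTheory Filter Topology Set

namespace H11.GLP

/-- a self-avoiding nearest-neighbour path of length `n` from the origin of `ℤ^d`. -/
def IsPath (d n : ℕ) (Γ : Fin (n + 1) → Fin d → ℤ) : Prop :=
  Function.Injective Γ ∧ Γ 0 = 0 ∧ ∀ i : Fin n, ∑ j, |Γ i.succ j - Γ i.castSucc j| = 1

/-- the greedy lattice path weight `M_n`. -/
noncomputable def M {d : ℕ} {Ω : Type} (X : (Fin d → ℤ) → Ω → ℝ) (n : ℕ) (ω : Ω) : ℝ :=
  sSup {s | ∃ Γ, IsPath d n Γ ∧ s = ∑ i : Fin n, X (Γ i.succ) ω}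

theorem path1 {n : ℕ} {Γ : Fin (n + 1) → Fin 1 → ℤ} (h : IsPath 1 n Γ) :
    ∃ ε : ℤ, (ε = 1 ∨ ε = -1) ∧ ∀ i : Fin n, Γ i.succ = fun _ => ε * ((i : ℕ) + 1) := by
  obtain ⟨hi, h0, hs⟩ := h
  have hs' : ∀ k (hk : k < n), |Γ ⟨k + 1, by omega⟩ 0 - Γ ⟨k, by omega⟩ 0| = 1 := fun k hk => by
    simpa using hs ⟨k, hk⟩
  have h0' : Γ ⟨0, by omega⟩ 0 = 0 := congrFun h0 0
  rcases Nat.eq_zero_or_pos n with rfl | hn
  · exact ⟨1, Or.inl rfl, fun i => i.elim0⟩
  have h1 := hs' 0 hn
  rw [h0', sub_zero] at h1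
  have he := eq_or_eq_neg_of_abs_eq h1
  refine ⟨_, he, ?_⟩
  set ε := Γ ⟨0 + 1, by omega⟩ 0
  have key : ∀ k (hk : k < n), Γ ⟨k, by omega⟩ 0 = ε * k ∧ Γ ⟨k + 1, by omega⟩ 0 = ε * (k + 1) := by
    intro k
    induction k with
    | zero => intro hk; exact ⟨by simpa using h0', by simp [ε]⟩
    | succ k ih =>
      intro hk
      obtain ⟨a, b⟩ := ih (by omega)
      refine ⟨by simpa using b, ?_⟩
      have c := eq_or_eq_neg_of_abs_eq (hs' (k + 1) hk)
      have d : Γ ⟨k + 1 + 1, by omega⟩ 0 ≠ Γ ⟨k, by omega⟩ 0 := fun e => by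
        have : Γ ⟨k + 1 + 1, by omega⟩ = Γ ⟨k, by omega⟩ := by
          funext j; rw [Subsingleton.elim j 0]; exact e
        have := hi this
        simp at this; omega
      rw [a] at d; rw [b] at c
      push_cast
      rcases he with he | he <;> rw [he] at c d ⊢ <;> omega
  intro i
  funext j
  rw [Subsingleton.elim j 0]
  exact (key i i.2).2

theorem path_ex (n : ℕ) : IsPath 1 n fun i _ => ((i : ℕ) : ℤ) := by
  refine ⟨fun a b h => ?_, by funext j; simp, fun i => by simp⟩
  have := congrFun h 0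
  simp only [Nat.cast_inj] at this
  exact Fin.ext this

noncomputable def nu : Measure ℝ := volume.restrict (Ioc 0 1)

instance : IsProbabilityMeasure nu := ⟨by simp [nu]⟩

abbrev Om := (Fin 1 → ℤ) → ℝ

noncomputable def PP : Measure Om := Measure.infinitePi fun _ => nu

instance : IsProbabilityMeasure PP := by unfold PP; infer_instance

noncomputable def XX (v : Fin 1 → ℤ) (ω : Om) : ℝ := -|ω v|⁻¹

theorem mp (v : Fin 1 → ℤ) : MeasurePreserving (fun ω : Om => ω v) PP nu :=
  measurePreserving_eval_infinitePi _ v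

theorem ident (φ : ℝ → ℝ) (hφ : Measurable φ) (v w : Fin 1 → ℤ) :
    IdentDistrib (fun ω : Om => φ (ω v)) (fun ω : Om => φ (ω w)) PP PP := by
  have : IdentDistrib (fun ω : Om => ω v) (fun ω : Om => ω w) PP PP :=
    ⟨(mp v).aemeasurable, (mp w).aemeasurable, by rw [(mp v).map_eq, (mp w).map_eq]⟩
  exact this.comp hφ

theorem indep (φ : ℝ → ℝ) (hφ : Measurable φ) : iIndepFun (fun v (ω : Om) => φ (ω v)) PP :=
  iIndepFun_infinitePi (X := fun _ => φ) fun _ => hφ

noncomputable def tr (K u : ℝ) : ℝ := min |u|⁻¹ K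

theorem tr_meas (K : ℝ) : Measurable (tr K) := by unfold tr; fun_prop

theorem tr_int (K : ℝ) (hK : 1 ≤ K) : Integrable (tr K) nu := by
  refine Integrable.of_bound (tr_meas K).aestronglyMeasurable K (ae_of_all _ fun u => ?_)
  have : 0 ≤ tr K u := le_min (by positivity) (by linarith)
  rw [Real.norm_eq_abs, abs_of_nonneg this]; exact min_le_right _ _

theorem tr_mean (K : ℝ) (hK : 1 ≤ K) : Real.log K ≤ ∫ u, tr K u ∂nu := by
  have h0 : 0 < K⁻¹ := by positivity
  have h1 : K⁻¹ ≤ 1 := inv_le_one_of_one_le₀ hK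
  have e : ∫ u in Ioc K⁻¹ 1, tr K u = Real.log K := by
    rw [setIntegral_congr_fun measurableSet_Ioc (g := fun u => u⁻¹),
      ← intervalIntegral.integral_of_le h1, integral_inv_of_pos h0 one_pos]
    · simp
    · intro u hu
      have hu0 : 0 < u := h0.trans hu.1
      simp only [tr, abs_of_pos hu0]
      exact min_eq_left (inv_le_of_inv_le₀ (by positivity) hu.1.le)
  rw [← e]
  exact setIntegral_mono_set (tr_int K hK)
    (ae_of_all _ fun u => le_min (inv_nonneg.2 (abs_nonneg u)) (zero_le_one.trans hK))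
    (Ioc_subset_Ioc_left h0.le).eventuallyLE

theorem slln (K : ℝ) (hK : 1 ≤ K) (ε : ℤ) (hε : ε ≠ 0) : ∀ᵐ ω ∂PP,
    Tendsto (fun n : ℕ => (∑ i ∈ Finset.range n, tr K (ω fun _ => ε * ((i : ℕ) + 1))) / n) atTop
      (𝓝 (∫ u, tr K u ∂nu)) := by
  have := strong_law_ae_real (μ := PP) (fun (i : ℕ) ω => tr K (ω fun _ => ε * ((i : ℕ) + 1)))
    ((mp fun _ => ε * (((0 : ℕ) : ℤ) + 1)).integrable_comp_of_integrable (tr_int K hK))
    (fun i j hij => (indep _ (tr_meas K)).indepFun fun h => hij (by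
      have := mul_left_cancel₀ hε (congrFun h 0)
      omega))
    (fun i => ident _ (tr_meas K) _ _)
  have e : ∫ ω, tr K (ω fun _ => ε * (((0 : ℕ) : ℤ) + 1)) ∂PP = ∫ u, tr K u ∂nu := by
    rw [← (mp fun _ => ε * (((0 : ℕ) : ℤ) + 1)).map_eq,
      integral_map (mp _).aemeasurable (tr_meas K).aestronglyMeasurable]
  rw [← e]
  exact this

theorem tail (t : ℝ) (ht : 0 < t) : PP {ω | XX 0 ω < -t} ≤ ENNReal.ofReal (2 / (1 + t)) := by
  have hm : MeasurableSet {u : ℝ | -|u|⁻¹ < -t} := measurableSet_lt (by fun_prop) (by fun_prop)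
  have := (mp 0).measure_preimage hm.nullMeasurableSet
  change PP {ω | XX 0 ω < -t} = _ at this
  rw [this, nu, Measure.restrict_apply hm]
  calc _ ≤ volume (Ioc (0 : ℝ) (2 / (1 + t))) := by
        apply measure_mono
        rintro u ⟨h1, h2, h3⟩
        refine ⟨h2, ?_⟩
        simp only [mem_setOf_eq, abs_of_pos h2, neg_lt_neg_iff] at h1
        rw [lt_inv_comm₀ ht h2, ← one_div, lt_div_iff₀ ht] at h1
        rw [le_div_iff₀ (by positivity)]
        nlinarith
    _ = _ := by simp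

end H11.GLP

open H11.GLP in
theorem Pool.Agent.Results.MP_18bc13_pr.Line.result :
    ∃ (d : ℕ) (Ω : Type) (_ : MeasurableSpace Ω) (P : Measure Ω) (_ : IsProbabilityMeasure P)
      (X : (Fin d → ℤ) → Ω → ℝ), d = 1 ∧ (∀ v, Measurable (X v)) ∧ iIndepFun X P ∧
      (∀ v, IdentDistrib (X v) (X 0) P P) ∧
      (∃ α : ℝ, 0 < α ∧ ∫⁻ ω, ENNReal.ofReal ((max (X 0 ω) 0) ^ d *
        (max (Real.log (max (X 0 ω) 0)) 0) ^ ((d : ℝ) + α)) ∂P < ⊤) ∧
      (∫⁻ t in Ioi (0 : ℝ), P {ω | X 0 ω < -t} ^ (2 * d) < ⊤) ∧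
      ∀ m : ℝ, ¬ Tendsto (fun n : ℕ => ∫⁻ ω, ‖M X n ω / n - m‖ₑ ∂P) atTop (𝓝 0) := by
  have hφ : Measurable fun u : ℝ => -|u|⁻¹ := by fun_prop
  refine ⟨1, Om, inferInstance, PP, inferInstance, XX, rfl, fun v => by unfold XX; fun_prop,
    indep _ hφ, fun v => ident _ hφ v 0, ⟨1, one_pos, ?_⟩, ?_, fun m hm => ?_⟩
  · have : ∀ ω, max (XX 0 ω) 0 = 0 := fun ω => max_eq_right (by simp [XX])
    simp [this]
  · calc _ ≤ ∫⁻ t in Ioi (0 : ℝ), ENNReal.ofReal (4 * (1 + t ^ 2)⁻¹) := by
          refine setLIntegral_mono' measurableSet_Ioi fun t ht => ?_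
          have ht : 0 < t := ht
          calc _ ≤ ENNReal.ofReal (2 / (1 + t)) ^ (2 * 1) := by gcongr; exact tail t ht
            _ = ENNReal.ofReal ((2 / (1 + t)) ^ 2) := by
              rw [ENNReal.ofReal_pow (by positivity)]
            _ ≤ _ := by
              apply ENNReal.ofReal_le_ofReal
              rw [div_pow, ← div_eq_mul_inv, div_le_div_iff₀ (by positivity) (by positivity)]
              nlinarith
      _ < ⊤ := (integrable_inv_one_add_sq.const_mul 4).integrableOn.lintegral_lt_top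
  · set K := Real.exp (|m| + 2)
    have hK : 1 ≤ K := Real.one_le_exp (by positivity)
    have hmean : |m| + 1 < ∫ u, tr K u ∂nu := by
      have := tr_mean K hK
      rw [Real.log_exp] at this; linarith
    let A : ℕ → Set Om := fun n => {ω | ∀ ε ∈ ({1, -1} : Finset ℤ), |m| + 1 <
      (∑ i ∈ Finset.range n, tr K (ω fun _ => ε * ((i : ℕ) + 1))) / n}
    have hA : ∀ n, MeasurableSet (A n) := fun n => by
      have := tr_meas K
      simp only [A, setOf_forall]
      exact MeasurableSet.iInter fun ε => MeasurableSet.iInter fun _ =>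
        measurableSet_lt (by fun_prop) (by fun_prop)
    have hle : ∀ n ω, (A n).indicator (1 : Om → ENNReal) ω ≤ ‖M XX n ω / n - m‖ₑ := by
      intro n ω
      by_cases h : ω ∈ A n
      · rw [indicator_of_mem h]
        have hn : (0 : ℝ) < n := by
          rcases Nat.eq_zero_or_pos n with rfl | hn
          · have := h 1 (by simp)
            simp at this
            linarith [abs_nonneg m]
          · exact_mod_cast hn
        have h1 : M XX n ω ≤ -((|m| + 1) * n) := by
          refine csSup_le ⟨_, _, path_ex n, rfl⟩ ?_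
          rintro _ ⟨Γ, hΓ, rfl⟩
          obtain ⟨ε, hε, hΓ⟩ := path1 hΓ
          have := h ε (by simpa using hε)
          rw [lt_div_iff₀ hn, Finset.sum_range] at this
          rw [le_neg, ← Finset.sum_neg_distrib]
          refine this.le.trans (Finset.sum_le_sum fun i _ => ?_)
          rw [hΓ i, XX, neg_neg]
          exact min_le_left _ _
        have h2 : M XX n ω / n ≤ -(|m| + 1) := by
          rw [div_le_iff₀ hn]; linarith
        rw [← ofReal_norm_eq_enorm, Pi.one_apply, ENNReal.one_le_ofReal, Real.norm_eq_abs]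
        exact le_abs'.2 (Or.inl (by linarith [neg_abs_le m]))
      · simp [indicator_of_notMem h]
    have hF := lintegral_liminf_le (μ := PP) (u := atTop)
      (f := fun n => (A n).indicator (1 : Om → ENNReal)) fun n => measurable_one.indicator (hA n)
    have hlim : Tendsto (fun n => ∫⁻ ω, (A n).indicator (1 : Om → ENNReal) ω ∂PP) atTop (𝓝 0) :=
      tendsto_of_tendsto_of_tendsto_of_le_of_le tendsto_const_nhds hm (fun _ => bot_le)
        fun n => lintegral_mono (hle n)
    rw [hlim.liminf_eq] at hF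
    have hae : ∀ᵐ ω ∂PP, liminf (fun n => (A n).indicator (1 : Om → ENNReal) ω) atTop = 1 := by
      filter_upwards [slln K hK 1 one_ne_zero, slln K hK (-1) (by norm_num)] with ω h1 h2
      apply Tendsto.liminf_eq
      refine tendsto_const_nhds.congr' ?_
      filter_upwards [h1.eventually (lt_mem_nhds hmean), h2.eventually (lt_mem_nhds hmean)]
        with n a b
      rw [indicator_of_mem]
      · rfl
      · intro ε hε
        simp only [Finset.mem_insert, Finset.mem_singleton] at hε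
        rcases hε with rfl | rfl
        exacts [a, b]
    rw [lintegral_congr_ae hae] at hF
    simp at hF
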